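import Pool.Agent.Q120.FE.Stm

/-! # Project FE (helper120), job CHEB (helper177) -/

set_option autoImplicit false

namespace Pool.Agent.Q177.FE

open Finset MeasureTheory Filter Pool.Agent.Q120.ET Pool.Agent.Q120.FZ Pool.Agent.Q120.FE

theorem t_CHEB : J_CHEB := by
  refine ⟨4, by norm_num, fun i hi => ?_⟩
  have hi0 : (0 : ℝ) < i := by exact_mod_cast hi
  have hlog2 : 0 < Real.log 2 := Real.log_pos (by norm_num)
  have h1 : ∀ p ∈ pb i, (i : ℝ) * Real.log 2 ≤ Real.log p := by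
    intro p hp
    unfold pb at hp
    rw [mem_filter, block, mem_Ico] at hp
    rw [← Real.log_pow]
    refine Real.log_le_log (by positivity) ?_
    exact_mod_cast hp.1.1
  have h2 : (pb i).card * ((i : ℝ) * Real.log 2) ≤ ∑ p ∈ pb i, Real.log p := by
    have := Finset.card_nsmul_le_sum (pb i) (fun p : ℕ => Real.log p) ((i : ℝ) * Real.log 2) h1
    rwa [nsmul_eq_mul] at this
  have h3 : ∑ p ∈ pb i, Real.log (p : ℝ) ≤ Chebyshev.theta ((2 ^ (i + 1) : ℕ) : ℝ) := by
    rw [Chebyshev.theta_eq_sum_Icc, Nat.floor_natCast]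
    refine Finset.sum_le_sum_of_subset_of_nonneg ?_ ?_
    · intro p hp
      unfold pb at hp
      rw [mem_filter, block, mem_Ico] at hp
      rw [mem_filter, mem_Icc]
      exact ⟨⟨Nat.zero_le _, hp.1.2.le⟩, hp.2⟩
    · intro p hp _
      exact Real.log_natCast_nonneg p
  have h4 := Chebyshev.theta_le_log4_mul_x (x := ((2 ^ (i + 1) : ℕ) : ℝ)) (by positivity)
  have h5 : Real.log 4 = 2 * Real.log 2 := by
    rw [show (4 : ℝ) = 2 ^ 2 by norm_num, Real.log_pow]
    norm_num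
  rw [h5] at h4
  push_cast at h4
  have h6 : (pb i).card * ((i : ℝ) * Real.log 2) ≤ 4 * 2 ^ i * Real.log 2 := by
    have h7 : Chebyshev.theta ((2 ^ (i + 1) : ℕ) : ℝ) ≤ 2 * Real.log 2 * 2 ^ (i + 1) := by
      push_cast
      exact h4
    calc (pb i).card * ((i : ℝ) * Real.log 2) ≤ 2 * Real.log 2 * 2 ^ (i + 1) := h2.trans (h3.trans h7)
      _ = 4 * 2 ^ i * Real.log 2 := by ring
  have h7 : ((pb i).card : ℝ) * i ≤ 4 * 2 ^ i := by
    refine le_of_mul_le_mul_right ?_ hlog2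
    calc ((pb i).card : ℝ) * i * Real.log 2 = (pb i).card * ((i : ℝ) * Real.log 2) := by ring
      _ ≤ 4 * 2 ^ i * Real.log 2 := h6
  rw [← mul_div_assoc, le_div_iff₀ hi0]
  exact h7

end Pool.Agent.Q177.FE
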