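import Pool.Agent.Q120.FE.Stm
import Pool.Agent.Q111.GE.LAW
import Pool.Agent.Q150.TT.MIXL

/-! # Project FE (helper120), job MIXF (helper177) -/

set_option autoImplicit false

namespace Pool.Agent.Q177.FE

open Finset MeasureTheory Filter Pool.Agent.Q120.ET Pool.Agent.Q120.GM Pool.Agent.Q120.TT Pool.Agent.Q120.FZ
  Pool.Agent.Q120.FE

theorem prodOn_half_self (B : Finset ℕ) : prodOn half B B = (1 / 2 : ℝ) ^ B.card := by
  unfold prodOn half
  rw [Finset.sdiff_self, prod_empty, mul_one, prod_const]

theorem prodOn_half_pos (B T : Finset ℕ) : 0 < prodOn half B T := by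
  unfold prodOn half
  refine mul_pos (prod_pos fun _ _ => by norm_num) (prod_pos fun _ _ => by norm_num)

open Classical in
/-- the law of the full set -/
noncomputable def full (B T : Finset ℕ) : ℝ := if T = B then 1 else 0

theorem isLaw_full (B : Finset ℕ) : IsLaw half B (full B) where
  nonneg := by
    intro T _
    unfold full
    split_ifs <;> norm_num
  total := by
    classical
    unfold full
    rw [Finset.sum_ite_eq']
    rw [if_pos (mem_powerset_self B)]
  cont := fun T _ h => absurd h (prodOn_half_pos B T).ne'

theorem entOf_full (B : Finset ℕ) : entOf half B (full B) = B.card * Real.log 2 := by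
  classical
  unfold entOf
  rw [Finset.sum_eq_single B]
  · have : full B B = 1 := by unfold full; rw [if_pos rfl]
    rw [this, prodOn_half_self, one_mul, one_div, one_div, inv_pow, inv_inv, Real.log_pow]
  · intro T _ hT
    have : full B T = 0 := by unfold full; rw [if_neg hT]
    rw [this, zero_mul]
  · intro h
    exact absurd (mem_powerset_self B) h

theorem t_MIXF : J_MIXF := by
  classical
  intro q hq0 hq1
  have hh0 : ∀ i : ℕ, 0 ≤ half i := fun i => by unfold half; norm_num
  have hh1 : ∀ i : ℕ, half i ≤ 1 := fun i => by unfold half; norm_num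
  obtain ⟨P, hP⟩ : ∃ P : Measure (ℕ → Bool), P = prodMeasure (ι := ℕ) half := ⟨_, rfl⟩
  haveI hPp : IsProbabilityMeasure P := by rw [hP]; infer_instance
  have hmod : IsModel P half (trueSet (ι := ℕ)) := by rw [hP]; exact isModel half hh0 hh1
  obtain ⟨D, hD⟩ : ∃ D : Measure (ℕ → Bool), D = Measure.dirac (fun _ => true) := ⟨_, rfl⟩
  haveI hDp : IsProbabilityMeasure D := by rw [hD]; infer_instance
  obtain ⟨μ, hμ⟩ : ∃ μ : Measure (ℕ → Bool), μ = ENNReal.ofReal (1 - q) • P + ENNReal.ofReal q • D := ⟨_, rfl⟩
  have hval : ∀ s : Set (ℕ → Bool), μ.real s = (1 - q) * P.real s + q * D.real s := by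
    intro s
    rw [Measure.real, hμ, Measure.add_apply, Measure.smul_apply, Measure.smul_apply, smul_eq_mul, smul_eq_mul,
      ENNReal.toReal_add (ENNReal.mul_ne_top ENNReal.ofReal_ne_top (measure_ne_top P s))
        (ENNReal.mul_ne_top ENNReal.ofReal_ne_top (measure_ne_top D s)),
      ENNReal.toReal_mul, ENNReal.toReal_mul, ENNReal.toReal_ofReal (by linarith), ENNReal.toReal_ofReal hq0]
    rfl
  haveI hμp : IsProbabilityMeasure μ := by
    refine ⟨?_⟩
    rw [hμ, Measure.add_apply, Measure.smul_apply, Measure.smul_apply, smul_eq_mul, smul_eq_mul, measure_univ,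
      measure_univ, mul_one, mul_one, ← ENNReal.ofReal_add (by linarith) hq0]
    simp
  refine ⟨ℕ → Bool, inferInstance, μ, hμp, trueSet, hmod.meas, fun B => ?_, ?_⟩
  · have hlaw : ∀ T ∈ B.powerset, lawOn μ trueSet B T = (1 - q) * prodOn half B T + q * full B T := by
      intro T hT
      have hTB := mem_powerset.1 hT
      have h1 := Pool.Agent.Q111.GE.law_model hmod B T hTB
      unfold lawOn at h1 ⊢
      rw [hval, h1]
      have h2 : D.real {ω : ℕ → Bool | ∀ n ∈ B, (n ∈ trueSet ω ↔ n ∈ T)} = full B T := by
        have hms : MeasurableSet {ω : ℕ → Bool | ∀ n ∈ B, (n ∈ trueSet ω ↔ n ∈ T)} :=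
          measurableSet_law hmod.meas B T
        unfold full
        rw [Measure.real, hD, Measure.dirac_apply' _ hms]
        by_cases h : T = B
        · rw [if_pos h, Set.indicator_of_mem, Pi.one_apply, ENNReal.toReal_one]
          intro n hn
          rw [h]
          simp [trueSet, hn]
        · rw [if_neg h, Set.indicator_of_notMem, ENNReal.toReal_zero]
          intro hc
          apply h
          refine Finset.Subset.antisymm hTB fun n hn => ?_
          exact (hc n hn).1 rfl
      rw [h2]
      rfl
    have h3 := (Pool.Agent.Q150.TT.t_MIXL half B (fun n _ => ⟨hh0 n, hh1 n⟩)).2 (full B) (isLaw_full B) q hq0 hq1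
    rw [entOf_full] at h3
    refine le_trans (le_of_eq ?_) h3.2
    unfold relEnt entOf
    exact sum_congr rfl fun T hT => by rw [hlaw T hT]
  · have h1 : D.real {ω : ℕ → Bool | trueSet ω = Set.univ} = 1 := by
      have h2 : {ω : ℕ → Bool | trueSet ω = Set.univ} = {fun _ => true} := by
        ext ω
        simp only [Set.mem_ofPred_eq, Set.mem_singleton_iff]
        constructor
        · intro h
          funext n
          have : n ∈ trueSet ω := by rw [h]; trivial
          exact this
        · intro h
          rw [h]
          ext n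
          simp [trueSet]
      rw [h2, Measure.real, hD, Measure.dirac_apply' _ (MeasurableSet.singleton _)]
      simp
    rw [hval, h1]
    have : 0 ≤ P.real {ω : ℕ → Bool | trueSet ω = Set.univ} := measureReal_nonneg
    have h2 : 0 ≤ (1 - q) * P.real {ω : ℕ → Bool | trueSet ω = Set.univ} := mul_nonneg (by linarith) this
    linarith

end Pool.Agent.Q177.FE
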